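import Pool.Agent.H.MP_9a42a6_lc.A

set_option autoImplicit false

namespace Pool.Agent.Results.MP_9a42a6_lc.Mono

open Cardinal Set

theorem result (κ : Cardinal.{0}) (hκ : ℵ₀ < κ) (h : ∀ μ < κ, (2 : Cardinal.{0}) ^ μ < 2 ^ κ)
    (c : Sym2 (Iio κ.ord → Bool) → Iio κ.ord)
    (hc : ∃ μ : Iio κ.ord, ∀ (x y : Iio κ.ord → Bool) (i : Iio κ.ord),
      x i ≠ y i → (∀ j < i, x j = y j) → c s(x, y) < max i μ)
    (ν : Cardinal.{0}) (hν : ν < κ) :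
    ∃ (Y : Set (Iio κ.ord → Bool)) (a : Iio κ.ord),
      (Y.Pairwise fun x y => c s(x, y) = a) ∧ #Y = lift.{1} (Order.succ ν) := by
  obtain ⟨μ, hc⟩ := hc
  obtain ⟨Y, ⟨a, h1⟩, h2⟩ := H.MP_9a42a6_lc.main (ν := max ℵ₀ (max ν μ.1.card)) (le_max_left _ _)
    (h _ (max_lt hκ (max_lt hν (lt_ord.1 μ.2)))) μ (le_max_of_le_right (le_max_right _ _)) c
      fun x y i l a b => (hc x y i a b).trans_eq (max_eq_left l)
  obtain ⟨Z, h3, h4⟩ := le_mk_iff_exists_subset.1 (show lift.{1} (Order.succ ν) ≤ #Y from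
    lift_succ ν ▸ Order.succ_le_of_lt
      ((lift_le.2 (le_max_of_le_right (le_max_left _ _))).trans_lt h2))
  exact ⟨Z, a, h1.mono h3, h4⟩

end Pool.Agent.Results.MP_9a42a6_lc.Mono
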